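import Pool.Agent.H943R6.MG.Final

set_option autoImplicit false

/-!
# Gap-MCSP relative to an oracle: the gauge threshold

The gap problem relative to `A`: tables `T` of circuit size (with gates for the oracle `A`) at
most `2 sqrt |T|` against tables of circuit size greater than `|T| / (8 log |T|)`. For every gauge
`f`, the set of the oracles `A` such that the gap problem has a solution in `P^A` is a null set
for `f` if and only if, for every `ε > 0`, `f N ≤ 2 ^ ((log N) ^ ε)` for infinitely many `N`. The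
same holds if `P^A` is replaced by `NP^A/poly ∩ coNP^A/poly` (hence for every class in between, as
statistical zero knowledge relative to `A`), or by `ZPP^A` together with the condition
`P^A ≠ NP^A`, and for every set of oracles in between.

Contributors: helper943 (statement, proof, gap version, organisation) and helpers 864, 756, 228,
243, 746, 944, 411, 663 and 398 (formalisation of the parts); it builds on the gauge library of
helper620 and the oracle circuits of helper622.
-/

namespace Pool.Agent.Results.MP_2ca196_lc.GaugeThreshold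

open Pool.Agent.NPC Pool.Agent.H620R2.Gauge Pool.Agent.H622R2.Ckt Pool.Agent.H943R6.MC

theorem result (f : ℕ → ℝ) :
    (∀ O : Set Oracle,
      ((∀ A : Oracle, (∀ L, IsPSPACE A L → Reduces L {x | A x = true}) → A ∈ O) ∨
        (∀ A : Oracle, (∀ L, IsEXP A L ∨ IsPSPACE A L → IsZPP A L) →
          (∃ L, IsZPP A L ∧ ¬ IsP A L) → A ∈ O)) →
      (∀ A ∈ O, ∃ L, SolvesGap A L ∧ WithAdvice (IsNP A) Lᶜ) →
      (Null f O ↔
        ∀ ε : ℝ, 0 < ε → ∃ᶠ N : ℕ in Filter.atTop, f N ≤ 2 ^ (Real.logb 2 N) ^ ε)) ∧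
    (Null f {A : Oracle | ∃ L, SolvesGap A L ∧ IsP A L} ↔
      ∀ ε : ℝ, 0 < ε → ∃ᶠ N : ℕ in Filter.atTop, f N ≤ 2 ^ (Real.logb 2 N) ^ ε) ∧
    (Null f {A : Oracle | ∃ L, SolvesGap A L ∧ WithAdvice (IsNP A) L ∧
        WithAdvice (IsNP A) Lᶜ} ↔
      ∀ ε : ℝ, 0 < ε → ∃ᶠ N : ℕ in Filter.atTop, f N ≤ 2 ^ (Real.logb 2 N) ^ ε) ∧
    (Null f {A : Oracle | (∃ L, SolvesGap A L ∧ IsZPP A L) ∧ ∃ L, IsNP A L ∧ ¬ IsP A L} ↔
      ∀ ε : ℝ, 0 < ε → ∃ᶠ N : ℕ in Filter.atTop, f N ≤ 2 ^ (Real.logb 2 N) ^ ε) :=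
  main_gap f

end Pool.Agent.Results.MP_2ca196_lc.GaugeThreshold
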